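import Pool.Agent.MMCI.FinalT2
import Pool.Agent.MMCI.BridgeX

set_option autoImplicit false

/-!
# MP_fa3f7f_ag: the minimal model conjecture for complete intersections in tori

Let `Z` be an irreducible component of a complete intersection in a torus `(ℂ^*)^n` which is
nondegenerate at infinity, with any Newton polytopes, and suppose that the complete intersection is
smooth, or that `Z` is a connected component of it which is integral with terminal singularities.
Then `Z` is birational to a projective variety `Y` with terminal singularities such that either
(a) the canonical divisor of `Y` is semiample and nef, or (b) `Y` is a Mori fibre space: there is a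
morphism to a variety of smaller dimension such that `K_Y · B < 0` for all curves `B` in its fibres.
The case (b) is needed only if the Fine interior of the sum of the Newton polytopes is empty.
-/

namespace Pool.Agent.Results.MP_fa3f7f_ag.MinimalModelsCI

open MMCI hiding IsTCI
open MMCX

/-- `K` is the function field of `Z`, `e = dim Z`, `x` is the generic point of `Z`. -/
theorem result : ∀ {e n r : ℕ} {K : Type} [Field K] [Algebra ℂ K] (f : Fin r → Laurent n)
    (x : Fin n → K), MMCX.IsTCI e f x → ∃ Y : ProjModel K, Terminal e Y ∧
      ((Semiample e Y ∧ Nef e Y) ∨ (MoriFibre e Y ∧ FineEmpty f)) := by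
  intro e n r K _ _ f x h
  have hd := h.dim
  obtain ⟨Y, h1, h2⟩ := main_tci f x (isTCI_to h)
  refine ⟨Y, terminal_of hd h1, ?_⟩
  rcases h2 with h2 | h2
  · exact Or.inl ⟨semiample_of hd h2.1, nef_of hd h2.2⟩
  · refine Or.inr ⟨moriFibre_of hd h2.1, ?_⟩
    rintro ⟨m, hm⟩
    exact Set.eq_empty_iff_forall_notMem.1 h2.2 m fun ν hν => by
      have h3 := hm ν hν
      unfold psi
      push_cast
      push_cast at h3
      exact h3

end Pool.Agent.Results.MP_fa3f7f_ag.MinimalModelsCI
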